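import Pool.Agent.H69L.Abs3
import Pool.Agent.H93.EH.SEQ
import Pool.Agent.H70.EH.CUT
import Pool.Agent.H93.EL.Fv

/-!
# ELSS for `m ≥ n² / 4` (MP_737bdd_co): assembly
-/

set_option autoImplicit false

namespace Pool.Agent.H56.EH

open Finset Pool.Agent.H68 Pool.Agent.H93.EL
open scoped Classical

theorem limK {A B c1 c2 : ℝ} (hc1 : 0 ≤ c1) (hc2 : 0 ≤ c2)
    (h : ∀ K : ℕ, 1 ≤ K → Even K → A * (K : ℝ) ^ 2 ≤ B * (K : ℝ) ^ 2 + c1 * K + c2) : A ≤ B := by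
  by_contra hlt
  push Not at hlt
  have hd : 0 < A - B := by linarith
  obtain ⟨N, hN⟩ := exists_nat_gt ((c1 + c2) / (A - B))
  have h1 : c1 + c2 < (A - B) * N := by
    rw [div_lt_iff₀ hd] at hN
    linarith
  have hK := h (2 * (N + 1)) (by omega) (by simp)
  push_cast at hK
  have hN0 : (0 : ℝ) ≤ N := Nat.cast_nonneg N
  set x : ℝ := 2 * ((N : ℝ) + 1) with hx
  have hx1 : 1 ≤ x := by rw [hx]; linarith
  have h2 : c1 + c2 < (A - B) * x := by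
    have : (A - B) * N ≤ (A - B) * x := mul_le_mul_of_nonneg_left (by rw [hx]; linarith) hd.le
    linarith
  have h3 : (c1 + c2) * x < (A - B) * x * x := mul_lt_mul_of_pos_right h2 (by linarith)
  have h4 : c2 ≤ c2 * x := by nlinarith
  nlinarith [h3, h4, hK]

theorem card_E (G : GeomHyp 2 2) (K : ℕ) :
    (univ.filter fun z : (G.V × Fin K) × (G.V × Fin K) =>
      ((z.1.1 : Pt 2), (z.2.1 : Pt 2)) ∈ ord G).card = 2 * G.E.card * K ^ 2 := by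
  rw [← ord_card]
  have h : (univ.filter fun z : (G.V × Fin K) × (G.V × Fin K) =>
      ((z.1.1 : Pt 2), (z.2.1 : Pt 2)) ∈ ord G).card =
      ((ord G) ×ˢ (univ : Finset (Fin K × Fin K))).card := by
    refine Finset.card_bij (fun z _ => (((z.1.1 : Pt 2), (z.2.1 : Pt 2)), (z.1.2, z.2.2))) ?_ ?_ ?_
    · intro z hz
      rw [mem_filter] at hz
      exact mem_product.2 ⟨hz.2, mem_univ _⟩
    · rintro ⟨⟨x, i⟩, ⟨y, j⟩⟩ _ ⟨⟨x', i'⟩, ⟨y', j'⟩⟩ _ h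
      simp only [Prod.mk.injEq] at h
      obtain ⟨⟨h1, h2⟩, h3, h4⟩ := h
      rw [Subtype.ext h1, Subtype.ext h2, h3, h4]
    · rintro ⟨⟨x, y⟩, ⟨i, j⟩⟩ hz
      have h1 := (mem_product.1 hz).1
      have h2 : x ∈ G.V ∧ y ∈ G.V := by
        have := (mem_filter.1 h1).1
        rw [mem_offDiag] at this
        exact ⟨this.1, this.2.1⟩
      exact ⟨((⟨x, h2.1⟩, i), (⟨y, h2.2⟩, j)), mem_filter.2 ⟨mem_univ _, h1⟩, rfl⟩
  rw [h, card_product, card_univ, Fintype.card_prod, Fintype.card_fin]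
  ring

/-- The bound for one geometric graph: for `2 r ≤ L`,
`2 (L - r) m ≤ 2 L M + (L - r)² n² / (2 L)`. -/
theorem bound (G : GeomHyp 2 2) {M : ℕ} (hM : Bd G M) {L r : ℕ} (hL : 0 < L)
    (hr : 2 * r ≤ L) :
    ((L - r : ℕ) : ℝ) * (2 * G.E.card) ≤
      L * (2 * M) + ((L - r : ℕ) : ℝ) ^ 2 * (G.V.card : ℝ) ^ 2 / (2 * L) := by
  have : NeZero L := ⟨hL.ne'⟩
  obtain ⟨ε, hF⟩ := exists_frame G
  refine limK (c1 := 4 * L ^ 4 * r ^ 2 * (G.V.card : ℝ)) (c2 := 8 * L ^ 9 * r ^ 2)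
    (by positivity) (by positivity) fun K hK1 hK => ?_
  obtain ⟨T, S, hS, hlow⟩ := Pool.Agent.H93.EH.seq hF hK
  have h := Pool.Agent.H69L.cnt hS r hr
    (univ.filter fun z : (G.V × Fin K) × (G.V × Fin K) =>
      ((z.1.1 : Pt 2), (z.2.1 : Pt 2)) ∈ ord G) (2 * M * K ^ 2) ?_
  · rw [card_E] at h
    rw [Fintype.card_prod, Fintype.card_fin, Fintype.card_coe] at h
    push_cast at h ⊢
    have e1 : ((L - r : ℕ) : ℝ) ^ 2 * ((G.V.card : ℝ) * K) ^ 2 / (2 * L) =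
        ((L - r : ℕ) : ℝ) ^ 2 * (G.V.card : ℝ) ^ 2 / (2 * L) * (K : ℝ) ^ 2 := by ring
    rw [e1] at h
    linarith
  · intro t ht
    obtain ⟨s, hs⟩ := hlow t ht
    rw [filter_filter]
    have h1 := Pool.Agent.H70.EH.cutw G hM (S t) fun A hA h1 h2 => low_cut hF (hs A hA h1 h2)
    have h2 : ((2 * M * K ^ 2 : ℕ) : ℝ) = 2 * (M : ℝ) * (K : ℝ) ^ 2 := by push_cast; ring
    rw [← h2]
    refine Nat.cast_le.2 (le_trans (le_of_eq ?_) h1)
    congr 1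
    ext z
    simp only [mem_filter]

/-- **The conjecture of Erdős, Lovász, Simmons and Straus for `m ≥ n² / 4`** -/
theorem half {n m : ℕ} (hmn : m ≤ n.choose 2) (h : n ^ 2 ≤ 4 * m) :
    (m : ℝ) ^ 2 / (n : ℝ) ^ 2 ≤ (fval 2 2 1 m n : ℝ) := by
  refine fv_of hmn _ fun G hV hE M hM => ?_
  rcases Nat.eq_zero_or_pos n with h0 | hn
  · subst h0
    simp
  have h2m : 2 * m ≤ n ^ 2 := by
    have h1 := Nat.choose_two_right n
    have h2 : 2 * (n * (n - 1) / 2) ≤ n * (n - 1) := Nat.mul_div_le _ _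
    have h3 : n * (n - 1) ≤ n ^ 2 := by
      rw [sq]
      exact Nat.mul_le_mul_left _ (Nat.sub_le _ _)
    omega
  have hb := bound G hM (L := n ^ 2) (r := n ^ 2 - 2 * m) (by positivity) (by omega)
  have e1 : n ^ 2 - (n ^ 2 - 2 * m) = 2 * m := by omega
  rw [e1, hV, hE] at hb
  push_cast at hb
  have hn0 : (0 : ℝ) < n := by exact_mod_cast hn
  have hn2 : (0 : ℝ) < (n : ℝ) ^ 2 := by positivity
  rw [div_le_iff₀ hn2]
  have e2 : (2 * (m : ℝ)) ^ 2 * (n : ℝ) ^ 2 / (2 * (n : ℝ) ^ 2) = 2 * (m : ℝ) ^ 2 := by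
    field_simp
  rw [e2] at hb
  nlinarith

end Pool.Agent.H56.EH
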