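import Mathlib

/-!
# ELSS for `m ≥ n² / 4` (MP_737bdd_co): words on the circle `ZMod (2 * L)`

A word is a function `ZMod (2 * L) → Bool` with `w (i + L) = !w i` (`Anti`). `oc p` is the word which is
true exactly on the half circle `[p, p + L)`. `hd w w'` is the number of places in the whole circle
where `w` and `w'` differ, twice the number of separating lines.
-/

set_option autoImplicit false

namespace Pool.Agent.H56.EH

open Finset

variable {L : ℕ}

/-- antiperiodic words -/
def Anti (L : ℕ) (w : ZMod (2 * L) → Bool) : Prop := ∀ i, w (i + (L : ZMod (2 * L))) = !w i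

/-- the word with one change, true on `[p, p + L)` -/
def oc (L : ℕ) (p : ZMod (2 * L)) : ZMod (2 * L) → Bool := fun i => decide ((i - p).val < L)

/-- the opposite word -/
def opp (w : ZMod (2 * L) → Bool) : ZMod (2 * L) → Bool := fun i => !w i

/-- twice the distance -/
def hd [NeZero (2 * L)] (w w' : ZMod (2 * L) → Bool) : ℕ := (univ.filter fun i => w i ≠ w' i).card

/-- the property of the weights `c` which is given by Lemma Lambda: a probability on the
up-changes of `w` with `∑ c b * min (dist p b) (L / 2) ≤ dist p w` (all distances doubled) -/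
structure Lam [NeZero (2 * L)] (w : ZMod (2 * L) → Bool) (c : ZMod (2 * L) → ℝ) : Prop where
  nonneg : ∀ b, 0 ≤ c b
  sum : ∑ b, c b = 1
  supp : ∀ b, c b ≠ 0 → w (b - 1) = false ∧ w b = true
  le : ∀ p, ∑ b, c b * ((min (hd (oc L p) (oc L b)) L : ℕ) : ℝ) ≤ (hd (oc L p) w : ℝ)

end Pool.Agent.H56.EH
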