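import Pool.Agent.H56.EH.Def

/-!
# ELSS for `m ≥ n² / 4`: pairs of words, gaps, halving sequences
-/

set_option autoImplicit false

namespace Pool.Agent.H56.EH

open Finset

/-- the words of two points: the separating lines change sides at most once -/
def Coex (L : ℕ) (U V : ZMod (2 * L) → Bool) : Prop :=
  ∃ k ≤ L, (∀ i < k, ¬ (U (i : ℕ) = false ∧ V (i : ℕ) = true)) ∧
    (∀ i, k ≤ i → i < L → ¬ (U (i : ℕ) = true ∧ V (i : ℕ) = false))

/-- the gaps of a monotone tuple in `[0, N]` -/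
def gap {k : ℕ} (N : ℕ) (x : Fin k → ℕ) (j : Fin (k + 1)) : ℕ :=
  (if h : j.val < k then x ⟨j.val, h⟩ else N) -
    (if h : 0 < j.val then x ⟨j.val - 1, by omega⟩ else 0)

/-- a sequence of halving sets over half a turn -/
structure HSeq {P : Type} [Fintype P] [DecidableEq P] (T : ℕ) (S : ℕ → Finset P) : Prop where
  card : ∀ t ≤ T, 2 * (S t).card = Fintype.card P
  step : ∀ t < T, (symmDiff (S t) (S (t + 1))).card ≤ 2
  last : S T = (S 0)ᶜ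
  pair : ∀ u v : P, ∃ s,
    ((∀ t ≤ T, t < s → ¬ (u ∉ S t ∧ v ∈ S t)) ∧ (∀ t ≤ T, s ≤ t → ¬ (u ∈ S t ∧ v ∉ S t))) ∨
    ((∀ t ≤ T, t < s → ¬ (u ∈ S t ∧ v ∉ S t)) ∧ (∀ t ≤ T, s ≤ t → ¬ (u ∉ S t ∧ v ∈ S t)))

end Pool.Agent.H56.EH
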